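import Mathlib

/-!
Baker's constant for prime solutions of ternary linear equations: with the definition of the
problem file (the bound is required for every admissible quadruple) every good exponent is at
least `log 13 / log 3 > 2.33`.  The extremal quadruple is `(3, 2, -1, 0)`.
-/

namespace Pool.Agent.Results.MP_3923f3_nt.LowerBound

/-- Admissible quadruples: `a, b, c` nonzero and not all of the same sign, `a+b+c-d` even, and
the four gcd conditions. -/
def Admissible (a b c d : ℤ) : Prop :=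
  a ≠ 0 ∧ b ≠ 0 ∧ c ≠ 0 ∧ ¬ (0 < a ∧ 0 < b ∧ 0 < c) ∧ ¬ (a < 0 ∧ b < 0 ∧ c < 0) ∧
  Even (a + b + c - d) ∧
  Int.gcd (Int.gcd a b) c = 1 ∧ Int.gcd (Int.gcd d a) b = 1 ∧
  Int.gcd (Int.gcd d a) c = 1 ∧ Int.gcd (Int.gcd d b) c = 1

/-- `m(a,b,c) = max(3,|a|,|b|,|c|)`. -/
def size (a b c : ℤ) : ℝ := max 3 (max |(a : ℝ)| (max |(b : ℝ)| |(c : ℝ)|))

/-- `μ` is good if for every admissible quadruple the equation `a p + b q + c r = d` has a
solution in primes with `max(p,q,r) ≤ 3|d| + m(a,b,c)^μ`. -/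
def Good (μ : ℝ) : Prop :=
  ∀ a b c d : ℤ, Admissible a b c d →
    ∃ p q r : ℕ, p.Prime ∧ q.Prime ∧ r.Prime ∧ a * p + b * q + c * r = d ∧
      (max (p : ℝ) (max (q : ℝ) (r : ℝ))) ≤ 3 * |(d : ℝ)| + size a b c ^ μ

/-- Baker's constant: the infimum of the good real numbers, taken in the extended reals so that
nothing has to be known about the existence of a good number. -/
noncomputable def bakerConstant : EReal := sInf {x : EReal | ∃ μ : ℝ, Good μ ∧ x = (μ : EReal)}

theorem good_lower {μ : ℝ} (h : Good μ) : Real.log 13 / Real.log 3 ≤ μ := by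
  obtain ⟨p, q, r, hp, hq, hr, e, hle⟩ := h 3 2 (-1) 0 (by
    refine ⟨by norm_num, by norm_num, by norm_num, by norm_num, by norm_num, ?_, ?_, ?_, ?_, ?_⟩
    · exact ⟨2, by norm_num⟩
    all_goals decide)
  have e' : (r : ℤ) = 3 * p + 2 * q := by linarith
  have e2 : r = 3 * p + 2 * q := by exact_mod_cast e'
  have hq2 := hq.two_le
  have hp2 := hp.two_le
  have hp3 : 3 ≤ p := by
    rcases Nat.lt_or_ge 2 p with h | h
    · exact h
    · exfalso
      have hp' : p = 2 := le_antisymm h hp2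
      subst hp'
      have : 2 ∣ r := ⟨3 + q, by omega⟩
      have := (Nat.prime_dvd_prime_iff_eq Nat.prime_two hr).1 this
      omega
  have hr13 : 13 ≤ r := by omega
  have hs : size 3 2 (-1) = 3 := by
    unfold size
    norm_num
  have hs' : size ((3 : ℤ)) ((2 : ℤ)) ((-1 : ℤ)) ^ μ = (3 : ℝ) ^ μ := by rw [hs]
  rw [hs'] at hle
  have h13 : (13 : ℝ) ≤ (3 : ℝ) ^ μ := by
    have h1 : (13 : ℝ) ≤ (r : ℝ) := by exact_mod_cast hr13
    have h2 : (r : ℝ) ≤ max (p : ℝ) (max (q : ℝ) (r : ℝ)) :=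
      le_trans (le_max_right _ _) (le_max_right _ _)
    have h3 : (3 * |((0 : ℤ) : ℝ)|) = 0 := by norm_num
    rw [h3, zero_add] at hle
    linarith
  have hlog := Real.log_le_log (by norm_num) h13
  rw [Real.log_rpow (by norm_num)] at hlog
  have h3pos : 0 < Real.log 3 := Real.log_pos (by norm_num)
  rw [div_le_iff₀ h3pos]
  exact hlog

/-- Baker's constant is at least `log 13 / log 3`, which is larger than `2.33`; in particular it
is not `1`. -/
theorem result :
    (∀ μ : ℝ, Good μ → Real.log 13 / Real.log 3 ≤ μ) ∧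
    ((Real.log 13 / Real.log 3 : ℝ) : EReal) ≤ bakerConstant ∧
    (2.33 : ℝ) < Real.log 13 / Real.log 3 ∧ bakerConstant ≠ 1 := by
  have h233 : (2.33 : ℝ) < Real.log 13 / Real.log 3 := by
    have h3pos : 0 < Real.log 3 := Real.log_pos (by norm_num)
    rw [lt_div_iff₀ h3pos]
    have h : (233 : ℝ) * Real.log 3 < 100 * Real.log 13 := by
      have h1 : Real.log ((3 : ℝ) ^ 233) < Real.log ((13 : ℝ) ^ 100) :=
        Real.log_lt_log (by positivity) (by norm_num)
      rw [Real.log_pow, Real.log_pow] at h1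
      exact_mod_cast h1
    nlinarith
  have hM : ((Real.log 13 / Real.log 3 : ℝ) : EReal) ≤ bakerConstant := by
    unfold bakerConstant
    apply le_sInf
    rintro x ⟨μ, hμ, rfl⟩
    exact_mod_cast good_lower hμ
  refine ⟨fun μ => good_lower, hM, h233, ?_⟩
  intro h
  rw [h] at hM
  have h1 : (Real.log 13 / Real.log 3 : ℝ) ≤ 1 := by exact_mod_cast hM
  linarith

end Pool.Agent.Results.MP_3923f3_nt.LowerBound
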